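import Pool.Agent.MP_3251d9_pr.H70.Final

set_option autoImplicit false

namespace Pool.Agent.Results.MP_3251d9_pr.Equal

open Pool.Agent.MP_3251d9_pr.H70

/-- the vertices of the cube grid -/
abbrev Vx (n : ℕ) : Type := Fin n × Fin n × Fin n

/-- grid neighbours: the coordinates differ by one in exactly one place -/
def Near {n : ℕ} (v w : Vx n) : Prop :=
  |(v.1 : ℤ) - w.1| + |(v.2.1 : ℤ) - w.2.1| + |(v.2.2 : ℤ) - w.2.2| = 1

/-- the spanning trees of the cube grid -/
def Trees (n : ℕ) : Set (SimpleGraph (Vx n)) := {T | T.IsTree ∧ ∀ v w, T.Adj v w → Near v w}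

/-- some edge splits the tree into two parts with the same number of vertices -/
def Splittable {n : ℕ} (T : SimpleGraph (Vx n)) : Prop :=
  ∃ u v, T.Adj u v ∧ {w | (T.deleteEdges {s(u, v)}).Reachable u w}.ncard =
    {w | (T.deleteEdges {s(u, v)}).Reachable v w}.ncard

/-- the probability that a uniform spanning tree is splittable -/
noncomputable def prob (n : ℕ) : ℝ :=
  ({T | T ∈ Trees n ∧ Splittable T}.ncard : ℝ) / (Trees n).ncard

lemma near_iff {n : ℕ} (v w : Vx n) : (grid n).Adj v w ↔ Near v w := by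
  obtain ⟨a, b, c⟩ := v
  obtain ⟨a', b', c'⟩ := w
  simp only [grid, SimpleGraph.boxProd_adj, SimpleGraph.pathGraph_adj, Prod.ext_iff, Fin.ext_iff,
    Near, Int.abs_eq_natAbs]
  omega

lemma mem_trees {n : ℕ} (T : SimpleGraph (Vx n)) : T ∈ Trees n ↔ T ≤ grid n ∧ T.IsTree :=
  ⟨fun h => ⟨fun v w a => (near_iff v w).mpr (h.2 v w a), h.1⟩,
    fun h => ⟨h.2, fun v w a => (near_iff v w).mp (h.1 a)⟩⟩

lemma parts {V : Type} [Finite V] {T : SimpleGraph V} (hT : T.IsTree) {u v : V} (h : T.Adj u v) :
    {w | (T.deleteEdges {s(u, v)}).Reachable u w}.ncard +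
      {w | (T.deleteEdges {s(u, v)}).Reachable v w}.ncard = Nat.card V := by
  rw [← Set.ncard_union_eq, ← Set.ncard_univ]
  · congr 1
    refine Set.eq_univ_of_forall fun w => ?_
    have := (SimpleGraph.reachable_iff_reflTransGen u w).mp (hT.connected.preconnected u w)
    induction this with
    | refl => exact Or.inl (SimpleGraph.Reachable.refl u)
    | @tail a b _ hab ih =>
      by_cases e : s(a, b) = s(u, v)
      · rcases Sym2.eq_iff.mp e with ⟨-, rfl⟩ | ⟨-, rfl⟩
        · exact Or.inr (SimpleGraph.Reachable.refl _)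
        · exact Or.inl (SimpleGraph.Reachable.refl _)
      · have : (T.deleteEdges {s(u, v)}).Adj a b := by simpa using ⟨hab, by simpa using e⟩
        exact ih.imp (fun x => x.trans this.reachable) fun x => x.trans this.reachable
  · refine Set.disjoint_left.mpr fun w h1 h2 => ?_
    exact SimpleGraph.isBridge_iff.mp
      (SimpleGraph.isAcyclic_iff_forall_adj_isBridge.mp hT.isAcyclic h) (h1.trans h2.symm)

theorem result : ∃ c C : ℝ, 0 < c ∧ 0 < C ∧ ∀ n : ℕ, 1 ≤ n → Even n →
    c * (n : ℝ) ^ (-C) ≤ prob n := by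
  obtain ⟨c, hc, k, h⟩ := main
  refine ⟨c, k + 1, hc, by positivity, fun n hn he => ?_⟩
  have h2 : 2 ≤ n := by obtain ⟨m, rfl⟩ := he; omega
  have n1 : (1 : ℝ) ≤ n := by exact_mod_cast hn
  have e1 : ((Trees n).ncard : ℝ) = nT n := by
    unfold nT
    congr 2
    ext T
    exact mem_trees T
  have e2 : ({T | T ∈ Trees n ∧ Splittable T}.ncard : ℝ) = nB n := by
    unfold nB
    congr 2
    ext T
    simp only [Set.mem_ofPred_eq, mem_trees, and_assoc]
    refine and_congr_right fun _ => and_congr_right fun hT => exists₂_congr fun u v =>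
      and_congr_right fun a => ?_
    have := parts hT a
    rw [Nat.card_prod, Nat.card_prod, Nat.card_fin, show n * (n * n) = n ^ 3 by ring] at this
    rw [← this, two_mul]
    exact (Nat.add_left_cancel_iff).symm
  rw [prob, e1, e2]
  refine le_trans ?_ (h n h2 he)
  rw [div_eq_mul_inv, ← Real.rpow_natCast, ← Real.rpow_neg (by positivity)]
  exact mul_le_mul_of_nonneg_left (Real.rpow_le_rpow_of_exponent_le n1 (by linarith)) hc.le

end Pool.Agent.Results.MP_3251d9_pr.Equal
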